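import Mathlib
import Pool.Agent.Q10.Ore

/-!
# The left strong rank condition does not descend along Ore extensions with surjective twist
-/

open Polynomial

namespace Pool.Agent.Results.MP_5f6a82_al.NoDescent

/-- The left strong rank condition: for no positive `n` is there an injective homomorphism of left
`A`-modules from `A ^ (n + 1)` to `A ^ n`. -/
def LSRC (A : Type*) [Ring A] : Prop :=
  ∀ n : ℕ, 0 < n → ¬ ∃ f : (Fin (n + 1) → A) →ₗ[A] (Fin n → A), Function.Injective f

/-! ### The free algebra and the shift -/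

/-- The free algebra over `ℚ` on `x_0, x_1, x_2, …`. -/
abbrev R : Type := FreeAlgebra ℚ ℕ

/-- The shift: `x_0 ↦ 0`, `x_{i+1} ↦ x_i`. -/
noncomputable def shift : R →ₐ[ℚ] R :=
  FreeAlgebra.lift ℚ fun i => if i = 0 then 0 else FreeAlgebra.ι ℚ (i - 1)

theorem shift_zero : shift (FreeAlgebra.ι ℚ 0) = 0 := by simp [shift]

theorem shift_succ (i : ℕ) : shift (FreeAlgebra.ι ℚ (i + 1)) = FreeAlgebra.ι ℚ i := by
  simp [shift]

theorem shift_surjective : Function.Surjective shift := by
  intro r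
  induction r using FreeAlgebra.induction with
  | grade0 q => exact ⟨algebraMap ℚ R q, AlgHom.commutes _ _⟩
  | grade1 i => exact ⟨FreeAlgebra.ι ℚ (i + 1), shift_succ i⟩
  | mul a b ha hb =>
    obtain ⟨a', rfl⟩ := ha
    obtain ⟨b', rfl⟩ := hb
    exact ⟨a' * b', map_mul _ _ _⟩
  | add a b ha hb =>
    obtain ⟨a', rfl⟩ := ha
    obtain ⟨b', rfl⟩ := hb
    exact ⟨a' + b', map_add _ _ _⟩

theorem shift_iterate (i k : ℕ) (h : i < k) : shift^[k] (FreeAlgebra.ι ℚ i) = 0 := by
  induction k generalizing i with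
  | zero => omega
  | succ k ih =>
    rw [Function.iterate_succ_apply]
    rcases i with _ | i
    · rw [shift_zero]
      exact iterate_map_zero shift k
    · rw [shift_succ]
      exact ih i (by omega)

/-- In the free algebra, `a x_0 + b x_1 = 0` implies `a = b = 0`. -/
theorem eq_zero_of_mul_add_mul (a b : R)
    (h : a * FreeAlgebra.ι ℚ 0 + b * FreeAlgebra.ι ℚ 1 = 0) : a = 0 ∧ b = 0 := by
  classical
  let e := FreeAlgebra.equivMonoidAlgebraFreeMonoid (R := ℚ) (X := ℕ)
  have he : ∀ i : ℕ, e (FreeAlgebra.ι ℚ i) = MonoidAlgebra.single (FreeMonoid.of i) 1 := by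
    intro i
    simp [e, FreeAlgebra.equivMonoidAlgebraFreeMonoid]
  have h1 := congrArg e h
  rw [map_add, map_mul, map_mul, he, he, map_zero] at h1
  have hne : ∀ (i j : ℕ) (w d : FreeMonoid ℕ), i ≠ j →
      d * FreeMonoid.of i ≠ w * FreeMonoid.of j := by
    intro i j w d hij hw
    apply hij
    have h2 := congrArg FreeMonoid.toList hw
    rw [FreeMonoid.toList_mul, FreeMonoid.toList_mul, FreeMonoid.toList_of,
      FreeMonoid.toList_of] at h2
    have := (List.append_inj' h2 rfl).2
    simpa using this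
  have hco : ∀ (i : ℕ) (y : MonoidAlgebra ℚ (FreeMonoid ℕ)) (w : FreeMonoid ℕ),
      (y * MonoidAlgebra.single (FreeMonoid.of i) 1).coeff (w * FreeMonoid.of i) = y.coeff w := by
    intro i y w
    rw [MonoidAlgebra.coeff_mul_single_eq_coeff_mul w, mul_one]
    intro d _
    exact mul_left_inj _
  constructor
  · have : e a = 0 := by
      apply MonoidAlgebra.ext
      ext w
      have h2 := congrArg (fun y => MonoidAlgebra.coeff y (w * FreeMonoid.of 0)) h1
      simp only [MonoidAlgebra.coeff_add, Finsupp.add_apply] at h2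
      rw [hco, MonoidAlgebra.coeff_mul_single_of_forall_mul_ne _ _
        (fun d => hne 1 0 w d one_ne_zero), add_zero] at h2
      exact h2
    exact (map_eq_zero_iff e e.injective).mp this
  · have : e b = 0 := by
      apply MonoidAlgebra.ext
      ext w
      have h2 := congrArg (fun y => MonoidAlgebra.coeff y (w * FreeMonoid.of 1)) h1
      simp only [MonoidAlgebra.coeff_add, Finsupp.add_apply] at h2
      rw [hco, MonoidAlgebra.coeff_mul_single_of_forall_mul_ne _ _
        (fun d => hne 0 1 w d zero_ne_one), zero_add] at h2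
      exact h2
    exact (map_eq_zero_iff e e.injective).mp this

theorem not_lsrc : ¬ LSRC R := by
  intro h
  apply h 1 one_pos
  refine ⟨{ toFun := fun v _ => v 0 * FreeAlgebra.ι ℚ 0 + v 1 * FreeAlgebra.ι ℚ 1
            map_add' := fun v w => by funext _; simp only [Pi.add_apply]; noncomm_ring
            map_smul' := fun r v => by
              funext _
              simp only [Pi.smul_apply, smul_eq_mul, RingHom.id_apply]; noncomm_ring }, ?_⟩
  rw [injective_iff_map_eq_zero]
  intro v hv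
  obtain ⟨h0, h1⟩ := eq_zero_of_mul_add_mul _ _ (congrFun hv 0)
  funext i
  fin_cases i
  · exact h0
  · exact h1

/-! ### The Ore extension has the left strong rank condition -/

section Ext

variable {A : Type} [Ring A] {ι : R →+* A} {x : A}
  (hA : Q10.IsOreExtension (shift : R →+* R) 0 ι x)

include hA

theorem x_mul (r : R) : x * ι r = ι (shift r) * x := by
  rw [hA.comm]; simp

theorem x_pow_mul (k : ℕ) (r : R) : x ^ k * ι r = ι (shift^[k] r) * x ^ k := by
  induction k generalizing r with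
  | zero => simp
  | succ k ih =>
    rw [pow_succ, mul_assoc, x_mul hA, ← mul_assoc, ih, Function.iterate_succ_apply, mul_assoc]

theorem commute_const (q : ℚ) : Commute (ι (algebraMap ℚ R q)) x := by
  have h := x_mul hA (algebraMap ℚ R q)
  rw [AlgHom.commutes] at h
  exact h.symm

/-- The embedding of `ℚ[X]` into the Ore extension. -/
noncomputable def Ψ : ℚ[X] →+* A :=
  Polynomial.eval₂RingHom' (ι.comp (algebraMap ℚ R)) x (commute_const hA)

theorem Ψ_X : Ψ hA X = x := by simp [Ψ]

theorem Ψ_C (q : ℚ) : Ψ hA (C q) = ι (algebraMap ℚ R q) := by simp [Ψ]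

theorem Ψ_injective : Function.Injective (Ψ hA) := by
  rw [injective_iff_map_eq_zero]
  intro p hp
  let f : ℕ →₀ R := p.toFinsupp.coeff.mapRange (algebraMap ℚ R) (map_zero _)
  have h1 : (f.sum fun i r => ι r * x ^ i) = Ψ hA p := by
    rw [Finsupp.sum_mapRange_index (by intro i; simp)]
    change _ = Polynomial.eval₂ _ _ _
    rw [Polynomial.eval₂_eq_sum, Polynomial.sum_def]
    rfl
  have h2 : f = 0 := by
    apply hA.bijective.injective
    change (f.sum fun i r => ι r * x ^ i) = ((0 : ℕ →₀ R).sum fun i r => ι r * x ^ i)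
    rw [h1, hp, Finsupp.sum_zero_index]
  ext i
  have h3 := DFunLike.congr_fun h2 i
  simp only [f, Finsupp.mapRange_apply, Finsupp.zero_apply] at h3
  rw [map_eq_zero_iff _ (FaithfulSMul.algebraMap_injective ℚ R)] at h3
  exact h3

/-- Every element is moved into `ℚ[x]` by large powers of `x`. -/
theorem eventually_const (a : A) : ∃ k₀ : ℕ, ∀ k ≥ k₀, ∃ c : ℚ[X], x ^ k * a = Ψ hA c * x ^ k := by
  have hmul : ∀ a b : A, (∃ k₀ : ℕ, ∀ k ≥ k₀, ∃ c : ℚ[X], x ^ k * a = Ψ hA c * x ^ k) →
      (∃ k₀ : ℕ, ∀ k ≥ k₀, ∃ c : ℚ[X], x ^ k * b = Ψ hA c * x ^ k) →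
      (∃ k₀ : ℕ, ∀ k ≥ k₀, ∃ c : ℚ[X], x ^ k * (a * b) = Ψ hA c * x ^ k) := by
    rintro a b ⟨k, hk⟩ ⟨l, hl⟩
    refine ⟨max k l, fun m hm => ?_⟩
    obtain ⟨c, hc⟩ := hk m (le_trans (le_max_left _ _) hm)
    obtain ⟨d, hd⟩ := hl m (le_trans (le_max_right _ _) hm)
    exact ⟨c * d, by rw [← mul_assoc, hc, mul_assoc, hd, map_mul, mul_assoc]⟩
  have hadd : ∀ a b : A, (∃ k₀ : ℕ, ∀ k ≥ k₀, ∃ c : ℚ[X], x ^ k * a = Ψ hA c * x ^ k) →
      (∃ k₀ : ℕ, ∀ k ≥ k₀, ∃ c : ℚ[X], x ^ k * b = Ψ hA c * x ^ k) →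
      (∃ k₀ : ℕ, ∀ k ≥ k₀, ∃ c : ℚ[X], x ^ k * (a + b) = Ψ hA c * x ^ k) := by
    rintro a b ⟨k, hk⟩ ⟨l, hl⟩
    refine ⟨max k l, fun m hm => ?_⟩
    obtain ⟨c, hc⟩ := hk m (le_trans (le_max_left _ _) hm)
    obtain ⟨d, hd⟩ := hl m (le_trans (le_max_right _ _) hm)
    exact ⟨c + d, by rw [mul_add, hc, hd, map_add, add_mul]⟩
  have hι : ∀ r : R, ∃ k₀ : ℕ, ∀ k ≥ k₀, ∃ c : ℚ[X], x ^ k * ι r = Ψ hA c * x ^ k := by
    intro r
    induction r using FreeAlgebra.induction with
    | grade0 q =>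
      refine ⟨0, fun k _ => ⟨C q, ?_⟩⟩
      rw [Ψ_C, ((commute_const hA q).symm.pow_left k).eq]
    | grade1 i =>
      refine ⟨i + 1, fun k hk => ⟨0, ?_⟩⟩
      rw [x_pow_mul hA, shift_iterate i k (by omega)]
      simp
    | mul a b ha hb => rw [map_mul]; exact hmul _ _ ha hb
    | add a b ha hb => rw [map_add]; exact hadd _ _ ha hb
  have hx : ∃ k₀ : ℕ, ∀ k ≥ k₀, ∃ c : ℚ[X], x ^ k * x = Ψ hA c * x ^ k :=
    ⟨0, fun k _ => ⟨X, by rw [Ψ_X, ← pow_succ, ← pow_succ']⟩⟩
  obtain ⟨p, rfl⟩ := hA.bijective.surjective a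
  induction p using Finsupp.induction_linear with
  | zero => exact ⟨0, fun k _ => ⟨0, by simp⟩⟩
  | add f g hf hg =>
    have : ((f + g).sum fun i r => ι r * x ^ i) =
        (f.sum fun i r => ι r * x ^ i) + (g.sum fun i r => ι r * x ^ i) := by
      rw [Finsupp.sum_add_index']
      · intro i; simp
      · intro i a b; rw [map_add, add_mul]
    change ∃ k₀ : ℕ, ∀ k ≥ k₀, ∃ c : ℚ[X],
      x ^ k * ((f + g).sum fun i r => ι r * x ^ i) = Ψ hA c * x ^ k
    rw [this]
    exact hadd _ _ hf hg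
  | single i r =>
    change ∃ k₀ : ℕ, ∀ k ≥ k₀, ∃ c : ℚ[X],
      x ^ k * ((Finsupp.single i r).sum fun i r => ι r * x ^ i) = Ψ hA c * x ^ k
    rw [Finsupp.sum_single_index (by simp)]
    apply hmul _ _ (hι r)
    induction i with
    | zero => exact ⟨0, fun k _ => ⟨1, by simp⟩⟩
    | succ i ih => rw [pow_succ]; exact hmul _ _ ih hx

theorem lsrc_ext : LSRC A := by
  classical
  rintro n hn ⟨f, hf⟩
  -- the matrix of `f`
  let N : Fin (n + 1) → Fin n → A := fun i => f (Pi.single i 1)
  choose K hK using fun (i : Fin (n + 1)) (j : Fin n) => eventually_const hA (N i j)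
  let k : ℕ := Finset.univ.sup fun i => Finset.univ.sup fun j => K i j
  have hk : ∀ i j, K i j ≤ k := fun i j =>
    (Finset.le_sup (f := fun j => K i j) (Finset.mem_univ j)).trans
      (Finset.le_sup (f := fun i => Finset.univ.sup fun j => K i j) (Finset.mem_univ i))
  choose c hc using fun (i : Fin (n + 1)) (j : Fin n) => hK i j k (hk i j)
  -- a nontrivial relation over `ℚ[X]`
  let g : (Fin (n + 1) → ℚ[X]) →ₗ[ℚ[X]] (Fin n → ℚ[X]) :=
    (Matrix.of c).vecMulLinear
  have hg : ¬ Function.Injective g := by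
    intro hinj
    have := le_of_fin_injective ℚ[X] g hinj
    omega
  rw [injective_iff_map_eq_zero] at hg
  push Not at hg
  obtain ⟨u, hu, hu0⟩ := hg
  apply hu0
  let v : Fin (n + 1) → A := fun i => Ψ hA (u i) * x ^ k
  have hfv : f v = 0 := by
    have hv : v = ∑ i, v i • (Pi.single i 1 : Fin (n + 1) → A) := by
      funext j
      simp [Finset.sum_apply, Pi.single_apply]
    rw [hv, map_sum]
    funext j
    simp only [map_smul, Finset.sum_apply, Pi.smul_apply, smul_eq_mul, Pi.zero_apply]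
    have hgj : ∑ i, u i * c i j = 0 := by
      have := congrFun hu j
      simpa [g, Matrix.vecMul, dotProduct] using this
    calc ∑ i, v i * f (Pi.single i 1) j = ∑ i, Ψ hA (u i) * (x ^ k * N i j) := by
          apply Finset.sum_congr rfl
          intro i _
          simp only [v, N, mul_assoc]
      _ = ∑ i, Ψ hA (u i * c i j) * x ^ k := by
          apply Finset.sum_congr rfl
          intro i _
          rw [hc, map_mul, mul_assoc]
      _ = 0 := by rw [← Finset.sum_mul, ← map_sum, hgj, map_zero, zero_mul]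
  have hv0 : v = 0 := (injective_iff_map_eq_zero f).mp hf v hfv
  funext i
  have hi : Ψ hA (u i * X ^ k) = 0 := by
    rw [map_mul, map_pow, Ψ_X]
    exact congrFun hv0 i
  have := (injective_iff_map_eq_zero _).mp (Ψ_injective hA) _ hi
  simpa using this

end Ext

/-- There are a ring `R`, a surjective endomorphism `σ` of `R` (and the zero `σ`-derivation) such
that the Ore extension `R[x; σ]` satisfies the left strong rank condition while `R` does not. -/
theorem result : ∃ (R : Type) (_ : Ring R) (σ : R →+* R) (A : Type) (_ : Ring A) (ι : R →+* A)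
    (x : A), Function.Surjective σ ∧ Q10.IsOreExtension σ 0 ι x ∧ LSRC A ∧ ¬ LSRC R := by
  obtain ⟨A, _, ι, x, hA⟩ := Q10.SkewModel.exists_ore (shift : R →+* R)
  exact ⟨R, inferInstance, shift, A, inferInstance, ι, x, shift_surjective, hA, lsrc_ext hA,
    not_lsrc⟩

end Pool.Agent.Results.MP_5f6a82_al.NoDescent
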